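import Pool.Agent.H937.QS.Stm

/-!
Project QS of helper937, part STR (helper618): the structure constants of the algebra of functions
on four points. The two lemmas on the associativity equations are helper869's (`H869/QChart.lean`).
-/

set_option autoImplicit false
set_option linter.unusedSimpArgs false

open scoped Matrix TensorProduct
open Pool.Agent.H937.QS
universe u

namespace Pool.Agent.H618.QS.STR

section ring

variable {S : Type u} [CommRing S]

theorem plu (s : Fin 3 → Fin 3 → Fin 4 → S) (hs : ∀ i j, s i j = s j i)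
    (hE : ∀ (i j l : Fin 3) (m : Fin 4), s i j 0 * (if m = l.succ then 1 else 0) +
      s i j 1 * s 0 l m + s i j 2 * s 1 l m + s i j 3 * s 2 l m =
      s i l 0 * (if m = j.succ then 1 else 0) + s i l 1 * s 0 j m +
      s i l 2 * s 1 j m + s i l 3 * s 2 j m) :
    pL s 0 * pL s 9 - pL s 1 * pL s 6 + pL s 2 * pL s 5 = 0 ∧
    pL s 0 * pL s 10 - pL s 1 * pL s 7 + pL s 3 * pL s 5 = 0 ∧
    pL s 0 * pL s 11 - pL s 1 * pL s 8 + pL s 4 * pL s 5 = 0 ∧
    pL s 0 * pL s 12 - pL s 2 * pL s 7 + pL s 3 * pL s 6 = 0 ∧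
    pL s 0 * pL s 13 - pL s 2 * pL s 8 + pL s 4 * pL s 6 = 0 ∧
    pL s 0 * pL s 14 - pL s 3 * pL s 8 + pL s 4 * pL s 7 = 0 ∧
    pL s 1 * pL s 12 - pL s 2 * pL s 10 + pL s 3 * pL s 9 = 0 ∧
    pL s 1 * pL s 13 - pL s 2 * pL s 11 + pL s 4 * pL s 9 = 0 ∧
    pL s 1 * pL s 14 - pL s 3 * pL s 11 + pL s 4 * pL s 10 = 0 ∧
    pL s 2 * pL s 14 - pL s 3 * pL s 13 + pL s 4 * pL s 12 = 0 ∧
    pL s 5 * pL s 12 - pL s 6 * pL s 10 + pL s 7 * pL s 9 = 0 ∧
    pL s 5 * pL s 13 - pL s 6 * pL s 11 + pL s 8 * pL s 9 = 0 ∧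
    pL s 5 * pL s 14 - pL s 7 * pL s 11 + pL s 8 * pL s 10 = 0 ∧
    pL s 6 * pL s 14 - pL s 7 * pL s 13 + pL s 8 * pL s 12 = 0 ∧
    pL s 9 * pL s 14 - pL s 10 * pL s 13 + pL s 11 * pL s 12 = 0 := by
  simp only [pL, Matrix.cons_val]
  have e1121 := hE 0 0 1 1
  have e1122 := hE 0 0 1 2
  have e1123 := hE 0 0 1 3
  have e1131 := hE 0 0 2 1
  have e1132 := hE 0 0 2 2
  have e1133 := hE 0 0 2 3
  have e1231 := hE 0 1 2 1
  have e1232 := hE 0 1 2 2
  have e1233 := hE 0 1 2 3
  have e2121 := hE 1 0 1 1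
  have e2122 := hE 1 0 1 2
  have e2123 := hE 1 0 1 3
  have e2131 := hE 1 0 2 1
  have e2132 := hE 1 0 2 2
  have e2231 := hE 1 1 2 1
  have e2232 := hE 1 1 2 2
  have e2233 := hE 1 1 2 3
  have e3131 := hE 2 0 2 1
  have e3132 := hE 2 0 2 2
  have e3231 := hE 2 1 2 1
  have e3232 := hE 2 1 2 2
  have hf2 : (Fin.succ (2 : Fin 3)) = (3 : Fin 4) := rfl
  simp only [Fin.isValue, hf2, hs 1 0, hs 2 0, hs 2 1, Fin.reduceEq, if_true, if_false, Fin.succ_zero_eq_one, Fin.succ_one_eq_two, mul_zero, mul_one, zero_add] at e1121 e1122 e1123 e1131 e1132 e1133 e1231 e1232 e1233 e2121 e2122 e2123 e2131 e2132 e2231 e2232 e2233 e3131 e3132 e3231 e3232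
  refine ⟨?_, ?_, ?_, ?_, ?_, ?_, ?_, ?_, ?_, ?_, ?_, ?_, ?_, ?_, ?_⟩
  · linear_combination e1123
  · linear_combination -e1122 + e1133
  · linear_combination -e1132
  · linear_combination -e2123
  · linear_combination e1121 + e2122
  · linear_combination e1131 - e1232 + e2132
  · linear_combination -e1233 + e2122
  · linear_combination e2132
  · linear_combination e3132
  · linear_combination e1231
  · linear_combination -e2121 - e2233
  · linear_combination e1231 - e2131 + e2232
  · linear_combination -e3131 + e3232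
  · linear_combination e2231
  · linear_combination e3231

theorem str (s : Fin 3 → Fin 3 → Fin 4 → S) (hs : ∀ i j, s i j = s j i)
    (hE : ∀ (i j l : Fin 3) (m : Fin 4), s i j 0 * (if m = l.succ then 1 else 0) +
      s i j 1 * s 0 l m + s i j 2 * s 1 l m + s i j 3 * s 2 l m =
      s i l 0 * (if m = j.succ then 1 else 0) + s i l 1 * s 0 j m +
      s i l 2 * s 1 j m + s i l 3 * s 2 j m) (i j : Fin 3) (m : Fin 4) :
    s i j m = FF (tL s) (pL s) i m j.succ := by
  have e1121 := hE 0 0 1 1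
  have e1122 := hE 0 0 1 2
  have e1123 := hE 0 0 1 3
  have e1131 := hE 0 0 2 1
  have e1132 := hE 0 0 2 2
  have e1133 := hE 0 0 2 3
  have e1231 := hE 0 1 2 1
  have e1232 := hE 0 1 2 2
  have e1233 := hE 0 1 2 3
  have e2121 := hE 1 0 1 1
  have e2122 := hE 1 0 1 2
  have e2123 := hE 1 0 1 3
  have e2131 := hE 1 0 2 1
  have e2132 := hE 1 0 2 2
  have e2231 := hE 1 1 2 1
  have e2232 := hE 1 1 2 2
  have e2233 := hE 1 1 2 3
  have e3131 := hE 2 0 2 1
  have e3132 := hE 2 0 2 2
  have e3231 := hE 2 1 2 1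
  have e3232 := hE 2 1 2 2
  have hf2 : (Fin.succ (2 : Fin 3)) = (3 : Fin 4) := rfl
  simp only [Fin.isValue, hf2, hs 1 0, hs 2 0, hs 2 1, Fin.reduceEq, if_true, if_false, Fin.succ_zero_eq_one, Fin.succ_one_eq_two, mul_zero, mul_one, zero_add] at e1121 e1122 e1123 e1131 e1132 e1133 e1231 e1232 e1233 e2121 e2122 e2123 e2131 e2132 e2231 e2232 e2233 e3131 e3132 e3231 e3232
  have f110 : s 0 0 0 = F1 (tL s) (pL s) 0 1 := by
    simp only [F1, tL, pL, Fin.isValue, Matrix.cons_val, Matrix.of_apply]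
    linear_combination e1122
  have f111 : s 0 0 1 = F1 (tL s) (pL s) 1 1 := by
    simp only [F1, tL, pL, Fin.isValue, Matrix.cons_val, Matrix.of_apply]
    try ring
  have f112 : s 0 0 2 = F1 (tL s) (pL s) 2 1 := by
    simp only [F1, tL, pL, Fin.isValue, Matrix.cons_val, Matrix.of_apply]
    try ring
  have f113 : s 0 0 3 = F1 (tL s) (pL s) 3 1 := by
    simp only [F1, tL, pL, Fin.isValue, Matrix.cons_val, Matrix.of_apply]
    try ring
  have f120 : s 0 1 0 = F1 (tL s) (pL s) 0 2 := by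
    simp only [F1, tL, pL, Fin.isValue, Matrix.cons_val, Matrix.of_apply]
    linear_combination -e1121
  have f121 : s 0 1 1 = F1 (tL s) (pL s) 1 2 := by
    simp only [F1, tL, pL, Fin.isValue, Matrix.cons_val, Matrix.of_apply]
    try ring
  have f122 : s 0 1 2 = F1 (tL s) (pL s) 2 2 := by
    simp only [F1, tL, pL, Fin.isValue, Matrix.cons_val, Matrix.of_apply]
    try ring
  have f123 : s 0 1 3 = F1 (tL s) (pL s) 3 2 := by
    simp only [F1, tL, pL, Fin.isValue, Matrix.cons_val, Matrix.of_apply]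
    try ring
  have f130 : s 0 2 0 = F1 (tL s) (pL s) 0 3 := by
    simp only [F1, tL, pL, Fin.isValue, Matrix.cons_val, Matrix.of_apply]
    linear_combination -e1131
  have f131 : s 0 2 1 = F1 (tL s) (pL s) 1 3 := by
    simp only [F1, tL, pL, Fin.isValue, Matrix.cons_val, Matrix.of_apply]
    try ring
  have f132 : s 0 2 2 = F1 (tL s) (pL s) 2 3 := by
    simp only [F1, tL, pL, Fin.isValue, Matrix.cons_val, Matrix.of_apply]
    try ring
  have f133 : s 0 2 3 = F1 (tL s) (pL s) 3 3 := by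
    simp only [F1, tL, pL, Fin.isValue, Matrix.cons_val, Matrix.of_apply]
    try ring
  have f220 : s 1 1 0 = F2 (tL s) (pL s) 0 2 := by
    simp only [F2, tL, pL, Fin.isValue, Matrix.cons_val, Matrix.of_apply]
    linear_combination -e2121
  have f221 : s 1 1 1 = F2 (tL s) (pL s) 1 2 := by
    simp only [F2, tL, pL, Fin.isValue, Matrix.cons_val, Matrix.of_apply]
    try ring
  have f222 : s 1 1 2 = F2 (tL s) (pL s) 2 2 := by
    simp only [F2, tL, pL, Fin.isValue, Matrix.cons_val, Matrix.of_apply]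
    try ring
  have f223 : s 1 1 3 = F2 (tL s) (pL s) 3 2 := by
    simp only [F2, tL, pL, Fin.isValue, Matrix.cons_val, Matrix.of_apply]
    try ring
  have f230 : s 1 2 0 = F2 (tL s) (pL s) 0 3 := by
    simp only [F2, tL, pL, Fin.isValue, Matrix.cons_val, Matrix.of_apply]
    linear_combination e1231 - e2131
  have f231 : s 1 2 1 = F2 (tL s) (pL s) 1 3 := by
    simp only [F2, tL, pL, Fin.isValue, Matrix.cons_val, Matrix.of_apply]
    try ring
  have f232 : s 1 2 2 = F2 (tL s) (pL s) 2 3 := by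
    simp only [F2, tL, pL, Fin.isValue, Matrix.cons_val, Matrix.of_apply]
    try ring
  have f233 : s 1 2 3 = F2 (tL s) (pL s) 3 3 := by
    simp only [F2, tL, pL, Fin.isValue, Matrix.cons_val, Matrix.of_apply]
    try ring
  have f330 : s 2 2 0 = F3 (tL s) (pL s) 0 3 := by
    simp only [F3, tL, pL, Fin.isValue, Matrix.cons_val, Matrix.of_apply]
    linear_combination -e3131
  have f331 : s 2 2 1 = F3 (tL s) (pL s) 1 3 := by
    simp only [F3, tL, pL, Fin.isValue, Matrix.cons_val, Matrix.of_apply]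
    try ring
  have f332 : s 2 2 2 = F3 (tL s) (pL s) 2 3 := by
    simp only [F3, tL, pL, Fin.isValue, Matrix.cons_val, Matrix.of_apply]
    try ring
  have f333 : s 2 2 3 = F3 (tL s) (pL s) 3 3 := by
    simp only [F3, tL, pL, Fin.isValue, Matrix.cons_val, Matrix.of_apply]
    try ring
  have f210 : F2 (tL s) (pL s) 0 1 = F1 (tL s) (pL s) 0 2 := by
    simp only [F1, F2, Fin.isValue, Matrix.cons_val, Matrix.of_apply]
  have f211 : F2 (tL s) (pL s) 1 1 = F1 (tL s) (pL s) 1 2 := by
    simp only [F1, F2, Fin.isValue, Matrix.cons_val, Matrix.of_apply]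
  have f212 : F2 (tL s) (pL s) 2 1 = F1 (tL s) (pL s) 2 2 := by
    simp only [F1, F2, Fin.isValue, Matrix.cons_val, Matrix.of_apply]
  have f213 : F2 (tL s) (pL s) 3 1 = F1 (tL s) (pL s) 3 2 := by
    simp only [F1, F2, Fin.isValue, Matrix.cons_val, Matrix.of_apply]
  have f310 : F3 (tL s) (pL s) 0 1 = F1 (tL s) (pL s) 0 3 := by
    simp only [F1, F3, Fin.isValue, Matrix.cons_val, Matrix.of_apply]
  have f311 : F3 (tL s) (pL s) 1 1 = F1 (tL s) (pL s) 1 3 := by
    simp only [F1, F3, Fin.isValue, Matrix.cons_val, Matrix.of_apply]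
  have f312 : F3 (tL s) (pL s) 2 1 = F1 (tL s) (pL s) 2 3 := by
    simp only [F1, F3, Fin.isValue, Matrix.cons_val, Matrix.of_apply]
  have f313 : F3 (tL s) (pL s) 3 1 = F1 (tL s) (pL s) 3 3 := by
    simp only [F1, F3, Fin.isValue, Matrix.cons_val, Matrix.of_apply]
  have f320 : F3 (tL s) (pL s) 0 2 = F2 (tL s) (pL s) 0 3 := by
    simp only [F2, F3, Fin.isValue, Matrix.cons_val, Matrix.of_apply]
  have f321 : F3 (tL s) (pL s) 1 2 = F2 (tL s) (pL s) 1 3 := by
    simp only [F2, F3, Fin.isValue, Matrix.cons_val, Matrix.of_apply]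
  have f322 : F3 (tL s) (pL s) 2 2 = F2 (tL s) (pL s) 2 3 := by
    simp only [F2, F3, Fin.isValue, Matrix.cons_val, Matrix.of_apply]
  have f323 : F3 (tL s) (pL s) 3 2 = F2 (tL s) (pL s) 3 3 := by
    simp only [F2, F3, Fin.isValue, Matrix.cons_val, Matrix.of_apply]
  fin_cases i <;> fin_cases j <;> fin_cases m
  · exact f110
  · exact f111
  · exact f112
  · exact f113
  · exact f120
  · exact f121
  · exact f122
  · exact f123
  · exact f130
  · exact f131
  · exact f132
  · exact f133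
  · exact (congrFun (hs 1 0) 0).trans (f120.trans f210.symm)
  · exact (congrFun (hs 1 0) 1).trans (f121.trans f211.symm)
  · exact (congrFun (hs 1 0) 2).trans (f122.trans f212.symm)
  · exact (congrFun (hs 1 0) 3).trans (f123.trans f213.symm)
  · exact f220
  · exact f221
  · exact f222
  · exact f223
  · exact f230
  · exact f231
  · exact f232
  · exact f233
  · exact (congrFun (hs 2 0) 0).trans (f130.trans f310.symm)
  · exact (congrFun (hs 2 0) 1).trans (f131.trans f311.symm)
  · exact (congrFun (hs 2 0) 2).trans (f132.trans f312.symm)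
  · exact (congrFun (hs 2 0) 3).trans (f133.trans f313.symm)
  · exact (congrFun (hs 2 1) 0).trans (f230.trans f320.symm)
  · exact (congrFun (hs 2 1) 1).trans (f231.trans f321.symm)
  · exact (congrFun (hs 2 1) 2).trans (f232.trans f322.symm)
  · exact (congrFun (hs 2 1) 3).trans (f233.trans f323.symm)
  · exact f330
  · exact f331
  · exact f332
  · exact f333

end ring

section field

variable {L : Type u} [Field L] (N : Matrix (Fin 4) (Fin 4) L)

theorem sc_symm (i j : Fin 3) : sc N i j = sc N j i := by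
  unfold sc
  congr 1
  funext q
  exact mul_comm _ _

theorem sc_spec (hN : N.det ≠ 0) (q : Fin 4) (i j : Fin 3) :
    ∑ m, N q m * sc N i j m = N q i.succ * N q j.succ := by
  have hu : IsUnit N.det := isUnit_iff_ne_zero.2 hN
  have h1 : N *ᵥ sc N i j = fun q => N q i.succ * N q j.succ := by
    unfold sc co
    rw [Matrix.mulVec_mulVec, Matrix.mul_nonsing_inv _ hu, Matrix.one_mulVec]
  exact congrFun h1 q

theorem uniq (hN : N.det ≠ 0) {a b : Fin 4 → L} (h : ∀ q, ∑ m, N q m * a m = ∑ m, N q m * b m) :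
    a = b := by
  have hu : IsUnit N.det := isUnit_iff_ne_zero.2 hN
  have h1 : N *ᵥ a = N *ᵥ b := funext h
  have h2 := congrArg (fun v => N⁻¹ *ᵥ v) h1
  simp only [Matrix.mulVec_mulVec, Matrix.nonsing_inv_mul _ hu, Matrix.one_mulVec] at h2
  exact h2

theorem sc_ass (h1 : ∀ q, N q 0 = 1) (hN : N.det ≠ 0) (q : Fin 4) (i j l : Fin 3) :
    ∑ m, N q m * (sc N i j 0 * (if m = l.succ then 1 else 0) + sc N i j 1 * sc N 0 l m +
      sc N i j 2 * sc N 1 l m + sc N i j 3 * sc N 2 l m) =
    N q i.succ * N q j.succ * N q l.succ := by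
  have e1 : ∑ m, N q m * (sc N i j 0 * (if m = l.succ then 1 else 0) + sc N i j 1 * sc N 0 l m +
      sc N i j 2 * sc N 1 l m + sc N i j 3 * sc N 2 l m) =
      sc N i j 0 * (∑ m, N q m * (if m = l.succ then 1 else 0)) +
      sc N i j 1 * (∑ m, N q m * sc N 0 l m) + sc N i j 2 * (∑ m, N q m * sc N 1 l m) +
      sc N i j 3 * (∑ m, N q m * sc N 2 l m) := by
    simp only [Finset.mul_sum, ← Finset.sum_add_distrib]
    refine Finset.sum_congr rfl fun m _ => ?_
    ring
  have e2 : ∑ m, N q m * (if m = l.succ then (1 : L) else 0) = N q l.succ := by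
    simp
  have e3 := sc_spec N hN q i j
  rw [Fin.sum_univ_four, h1] at e3
  rw [e1, e2, sc_spec N hN, sc_spec N hN, sc_spec N hN, ← e3]
  have f1 : (Fin.succ (0 : Fin 3)) = (1 : Fin 4) := rfl
  have f2 : (Fin.succ (1 : Fin 3)) = (2 : Fin 4) := rfl
  have f3 : (Fin.succ (2 : Fin 3)) = (3 : Fin 4) := rfl
  rw [f1, f2, f3]
  ring

theorem sc_E (h1 : ∀ q, N q 0 = 1) (hN : N.det ≠ 0) (i j l : Fin 3) (m : Fin 4) :
    sc N i j 0 * (if m = l.succ then 1 else 0) + sc N i j 1 * sc N 0 l m +
      sc N i j 2 * sc N 1 l m + sc N i j 3 * sc N 2 l m =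
    sc N i l 0 * (if m = j.succ then 1 else 0) + sc N i l 1 * sc N 0 j m +
      sc N i l 2 * sc N 1 j m + sc N i l 3 * sc N 2 j m := by
  refine congrFun (uniq N hN (a := fun m => sc N i j 0 * (if m = l.succ then 1 else 0) +
    sc N i j 1 * sc N 0 l m + sc N i j 2 * sc N 1 l m + sc N i j 3 * sc N 2 l m)
    (b := fun m => sc N i l 0 * (if m = j.succ then 1 else 0) + sc N i l 1 * sc N 0 j m +
      sc N i l 2 * sc N 1 j m + sc N i l 3 * sc N 2 j m) fun q => ?_) m
  rw [sc_ass N h1 hN, sc_ass N h1 hN]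
  ring

theorem pp_par (h1 : ∀ q, N q 0 = 1) (hN : N.det ≠ 0) (h2 : pL (sc N) 2 ≠ 0) :
    pp (par N) = pL (sc N) := by
  obtain ⟨r0, -, -, r3, r4, -, r6, r7, -, r9, -⟩ :=
    plu (sc N) (sc_symm N) (sc_E N h1 hN)
  unfold par pp qq
  generalize pL (sc N) = p at *
  generalize tL (sc N) = t at *
  funext X
  fin_cases X
  · simp only [Fin.isValue, Fin.zero_eta, Matrix.cons_val]
    field_simp
  · simp only [Fin.isValue, Fin.mk_one, Matrix.cons_val]
    field_simp
  · simp only [Fin.isValue, Fin.reduceFinMk, Matrix.cons_val]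
    ring
  · simp only [Fin.isValue, Fin.reduceFinMk, Matrix.cons_val]
    field_simp
  · simp only [Fin.isValue, Fin.reduceFinMk, Matrix.cons_val]
    field_simp
  · simp only [Fin.isValue, Fin.reduceFinMk, Matrix.cons_val]
    field_simp
    linear_combination -r0
  · simp only [Fin.isValue, Fin.reduceFinMk, Matrix.cons_val]
    field_simp
  · simp only [Fin.isValue, Fin.reduceFinMk, Matrix.cons_val]
    field_simp
    linear_combination r3
  · simp only [Fin.isValue, Fin.reduceFinMk, Matrix.cons_val]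
    field_simp
    linear_combination r4
  · simp only [Fin.isValue, Fin.reduceFinMk, Matrix.cons_val]
    field_simp
  · simp only [Fin.isValue, Fin.reduceFinMk, Matrix.cons_val]
    field_simp
    linear_combination r6
  · simp only [Fin.isValue, Fin.reduceFinMk, Matrix.cons_val]
    field_simp
    linear_combination r7
  · simp only [Fin.isValue, Fin.reduceFinMk, Matrix.cons_val]
    field_simp
  · simp only [Fin.isValue, Fin.reduceFinMk, Matrix.cons_val]
    field_simp
  · simp only [Fin.isValue, Fin.reduceFinMk, Matrix.cons_val]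
    field_simp
    linear_combination -r9

theorem tt_par : tt (par N) = tL (sc N) := by
  funext X
  fin_cases X <;> rfl

end field

theorem FF_col {S : Type u} [CommRing S] (t : Fin 3 → S) (p : Fin 15 → S) (i : Fin 3) (m : Fin 4) :
    FF t p i m 0 = if m = i.succ then 1 else 0 := by
  fin_cases i <;> fin_cases m <;> simp [FF, F1, F2, F3]

theorem t_STR : S_STR.{u} := by
  intro L _ N h1 hN h2
  have hp := pp_par N h1 hN h2
  have ht := tt_par N
  refine ⟨fun q i l => ?_, hp, ht⟩
  induction i using Fin.cases with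
  | zero =>
    have e1 : DF (par N) 0 = 1 := rfl
    rw [e1, h1, one_mul]
    simp [Matrix.one_apply]
  | succ i =>
    have e1 : DF (par N) i.succ = FF (tt (par N)) (pp (par N)) i := by
      fin_cases i <;> rfl
    rw [e1, hp, ht]
    induction l using Fin.cases with
    | zero =>
      rw [h1, mul_one]
      simp only [FF_col]
      simp
    | succ l =>
      rw [← sc_spec N hN q i l]
      refine Finset.sum_congr rfl fun m _ => ?_
      rw [← str (sc N) (sc_symm N) (sc_E N h1 hN)]

end Pool.Agent.H618.QS.STR
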